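import Pool.Agent.Helper61.GT.Goals

set_option autoImplicit false

namespace Pool.Agent.Helper99.GT

universe u

theorem gDEC : Pool.Agent.Helper61.GT.G_DEC.{u} := by
  intro A _ _ _ x c hx hc hn
  have hspec : ∀ s ∈ spectrum ℝ x, |s| ≤ 2 * c := by
    intro s hs
    rcases subsingleton_or_nontrivial A with h | h
    · exact absurd hs (by simp [spectrum.of_subsingleton])
    · exact (spectrum.norm_le_norm_of_mem hs).trans hn
  have hc4 : 0 < c ^ 4 := by positivity
  have e4 : x ^ 4 = cfc (fun s : ℝ => s ^ 4) x := by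
    rw [cfc_pow (fun s : ℝ => s) 4 x (by fun_prop) hx]
    rw [cfc_id' ℝ x hx]
  refine ⟨cfc (fun s : ℝ => max (-c) (min s c)) x, cfc (fun s : ℝ => max 0 (min ((s - c) / c) 1)) x,
    cfc (fun s : ℝ => max 0 (min ((-s - c) / c) 1)) x, cfc_predicate _ _, ?_, ?_, ?_, ?_, ?_, ?_, ?_, ?_, ?_⟩
  · refine norm_cfc_le hc.le ?_
    intro s hs
    rw [Real.norm_eq_abs, abs_le]
    exact ⟨le_max_left _ _, max_le (by linarith) (min_le_right _ _)⟩
  · rw [e4, ← cfc_pow (fun s : ℝ => max (-c) (min s c)) 4 x (by fun_prop) hx]
    refine cfc_mono ?_ (by fun_prop) (by fun_prop)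
    intro s hs
    have h1 : |max (-c) (min s c)| ≤ |s| := by
      rw [abs_le]
      have h2 := neg_abs_le s
      have h3 := le_abs_self s
      have h4 := abs_nonneg s
      constructor
      · by_cases h5 : s ≤ c
        · rw [min_eq_left h5]
          exact h2.trans (le_max_right _ _)
        · push Not at h5
          rw [min_eq_right h5.le]
          exact le_trans (by linarith) (le_max_right _ _)
      · refine max_le (by linarith) ((min_le_left _ _).trans h3)
    have h6 : (max (-c) (min s c)) ^ 4 = |max (-c) (min s c)| ^ 4 := by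
      rw [← abs_pow, abs_of_nonneg (by positivity)]
    have h7 : s ^ 4 = |s| ^ 4 := by
      rw [← abs_pow, abs_of_nonneg (by positivity)]
    rw [h6, h7]
    exact pow_le_pow_left₀ (abs_nonneg _) h1 4
  · exact cfc_nonneg (fun s hs => le_max_left _ _)
  · exact cfc_le_one _ _ (fun s hs => max_le zero_le_one (min_le_right _ _))
  · exact cfc_nonneg (fun s hs => le_max_left _ _)
  · exact cfc_le_one _ _ (fun s hs => max_le zero_le_one (min_le_right _ _))
  · rw [e4, ← cfc_smul (c ^ 4) (fun s : ℝ => max 0 (min ((s - c) / c) 1)) x (by fun_prop)]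
    refine cfc_mono ?_ (by fun_prop) (by fun_prop)
    intro s hs
    simp only [smul_eq_mul]
    by_cases h : s ≤ c
    · have h1 : min ((s - c) / c) 1 ≤ 0 := (min_le_left _ _).trans
        (div_nonpos_of_nonpos_of_nonneg (by linarith) hc.le)
      rw [max_eq_left h1, mul_zero]
      positivity
    · push Not at h
      have h1 : max 0 (min ((s - c) / c) 1) ≤ 1 := max_le zero_le_one (min_le_right _ _)
      calc c ^ 4 * max 0 (min ((s - c) / c) 1) ≤ c ^ 4 * 1 := by gcongr
        _ = c ^ 4 := mul_one _
        _ ≤ s ^ 4 := pow_le_pow_left₀ hc.le h.le 4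
  · rw [e4, ← cfc_smul (c ^ 4) (fun s : ℝ => max 0 (min ((-s - c) / c) 1)) x (by fun_prop)]
    refine cfc_mono ?_ (by fun_prop) (by fun_prop)
    intro s hs
    simp only [smul_eq_mul]
    by_cases h : -s ≤ c
    · have h1 : min ((-s - c) / c) 1 ≤ 0 := (min_le_left _ _).trans
        (div_nonpos_of_nonpos_of_nonneg (by linarith) hc.le)
      rw [max_eq_left h1, mul_zero]
      positivity
    · push Not at h
      have h1 : max 0 (min ((-s - c) / c) 1) ≤ 1 := max_le zero_le_one (min_le_right _ _)
      calc c ^ 4 * max 0 (min ((-s - c) / c) 1) ≤ c ^ 4 * 1 := by gcongr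
        _ = c ^ 4 := mul_one _
        _ ≤ (-s) ^ 4 := pow_le_pow_left₀ hc.le h.le 4
        _ = s ^ 4 := by ring
  · rw [← cfc_sub (fun s : ℝ => max 0 (min ((s - c) / c) 1)) (fun s : ℝ => max 0 (min ((-s - c) / c) 1)) x
      (by fun_prop) (by fun_prop)]
    rw [← cfc_smul c _ x (by fun_prop), ← cfc_add x _ _ (by fun_prop) (by fun_prop)]
    conv_lhs => rw [← cfc_id' ℝ x hx]
    refine cfc_congr ?_
    intro s hs
    have h := abs_le.1 (hspec s hs)
    simp only [smul_eq_mul]
    rcases le_total s (-c) with h1 | h1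
    · have e1 : min s c = s := min_eq_left (by linarith)
      have e2 : max (-c) s = -c := max_eq_left h1
      have e3 : min ((s - c) / c) 1 ≤ 0 := (min_le_left _ _).trans
        (div_nonpos_of_nonpos_of_nonneg (by linarith) hc.le)
      have e4 : (-s - c) / c ≤ 1 := by rw [div_le_one hc]; linarith
      have e5 : 0 ≤ (-s - c) / c := div_nonneg (by linarith) hc.le
      rw [e1, e2, max_eq_left e3, min_eq_left e4, max_eq_right e5]
      field_simp
      ring
    · rcases le_total s c with h2 | h2
      · have e1 : min s c = s := min_eq_left h2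
        have e2 : max (-c) s = s := max_eq_right h1
        have e3 : min ((s - c) / c) 1 ≤ 0 := (min_le_left _ _).trans
          (div_nonpos_of_nonpos_of_nonneg (by linarith) hc.le)
        have e4 : min ((-s - c) / c) 1 ≤ 0 := (min_le_left _ _).trans
          (div_nonpos_of_nonpos_of_nonneg (by linarith) hc.le)
        rw [e1, e2, max_eq_left e3, max_eq_left e4]
        ring
      · have e1 : min s c = c := min_eq_right h2
        have e2 : max (-c) c = c := max_eq_right (by linarith)
        have e3 : min ((-s - c) / c) 1 ≤ 0 := (min_le_left _ _).trans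
          (div_nonpos_of_nonpos_of_nonneg (by linarith) hc.le)
        have e4 : (s - c) / c ≤ 1 := by rw [div_le_one hc]; linarith
        have e5 : 0 ≤ (s - c) / c := div_nonneg (by linarith) hc.le
        rw [e1, e2, max_eq_left e3, min_eq_left e4, max_eq_right e5]
        field_simp
        ring

end Pool.Agent.Helper99.GT
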